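import Pool.Agent.H30.AW.Targets
import Pool.Agent.H52.AV.LR1

/-!
Module LRB of aw_modules.
-/

set_option autoImplicit false

namespace Pool.Agent.H34.AW

open MvPolynomial SC Pool.Agent.H27.LV Pool.Agent.H30.AV Pool.Agent.H30.AW

/-- Solve a linear relation for one unknown. -/
theorem lrb_solve {k Ω A : Type} [Field k] [Field Ω] [Algebra k Ω] [Fintype A] [DecidableEq A]
    (F : IntermediateField k Ω) (E : IntermediateField F Ω) (u v : A → Ω) (s : A) (hs : u s ≠ 0)
    (hu : ∀ j, u j ∈ E) (hv : ∀ j, j ≠ s → u j = 0 ∨ v j ∈ E) (h : ∑ j, u j * v j = 0) :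
    v s ∈ E := by
  have h1 : v s = -(∑ j ∈ Finset.univ.erase s, u j * v j) / u s := by
    rw [eq_div_iff hs]
    rw [← Finset.add_sum_erase _ _ (Finset.mem_univ s)] at h
    linear_combination h
  rw [h1]
  refine div_mem (neg_mem (sum_mem fun j hj => ?_)) (hu s)
  rcases hv j (Finset.ne_of_mem_erase hj) with h2 | h2
  · rw [h2, zero_mul]
    exact zero_mem _
  · exact mul_mem (hu j) h2

/-- Two unknowns are superfluous. -/
theorem lrb_two {k Ω A : Type} [Field k] [Field Ω] [Algebra k Ω] [Fintype A] [DecidableEq A]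
    (F : IntermediateField k Ω) (α : A → Ω) (x y : A) (hxy : x ≠ y)
    (h1 : α x ∈ IntermediateField.adjoin F (α '' ((Finset.univ.erase x).erase y : Finset A)))
    (h2 : α y ∈ IntermediateField.adjoin F (α '' ((Finset.univ.erase x).erase y : Finset A))) :
    Algebra.trdeg F (IntermediateField.adjoin F (Set.range α)) + 2 ≤ (Fintype.card A : ℕ) := by
  have hcard : ((Finset.univ.erase x).erase y).card + 2 = Fintype.card A := by
    have h3 : ((Finset.univ.erase x).erase y).card + 1 = (Finset.univ.erase x).card :=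
      Finset.card_erase_add_one (Finset.mem_erase.2 ⟨hxy.symm, Finset.mem_univ _⟩)
    have h4 : (Finset.univ.erase x).card + 1 = Fintype.card A := by
      rw [Finset.card_erase_add_one (Finset.mem_univ _)]
      rfl
    omega
  rw [← hcard]
  push_cast
  gcongr
  apply Pool.Agent.H52.AV.trdeg_adjoin_le
  intro z
  by_cases hz : z = x
  · rw [hz]
    exact h1
  · by_cases hz' : z = y
    · rw [hz']
      exact h2
    · exact IntermediateField.subset_adjoin _ _ ⟨z, by simp [hz, hz'], rfl⟩

/-- LRB -/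
theorem pf_LRB : T_LRB := by
  classical
  intro k Ω _ _ _ n F W a b b' hW hanti hdiag hW0 hb hb'
  obtain ⟨α, hα⟩ : ∃ α : Fin (n + 1) ⊕ Fin (n + 1) ⊕ Fin (n + 1) → Ω,
      α = Sum.elim a (Sum.elim b b') := ⟨_, rfl⟩
  have hr : Set.range a ∪ Set.range b ∪ Set.range b' = Set.range α := by
    rw [hα, Set.Sum.elim_range, Set.Sum.elim_range, Set.union_assoc]
  have hc : (3 * (n + 1) : ℕ) = Fintype.card (Fin (n + 1) ⊕ Fin (n + 1) ⊕ Fin (n + 1)) := by
    rw [Fintype.card_sum, Fintype.card_sum, Fintype.card_fin]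
    ring
  rw [hr, hc]
  have ha : ∀ j, α (Sum.inl j) = a j := fun j => by rw [hα]; rfl
  have hbe : ∀ j, α (Sum.inr (Sum.inl j)) = b j := fun j => by rw [hα]; rfl
  have hbe' : ∀ j, α (Sum.inr (Sum.inr j)) = b' j := fun j => by rw [hα]; rfl
  by_cases hWa : ∀ s, ∑ t, W (s, t) * a t = 0
  · obtain ⟨⟨s, t⟩, hst⟩ := Function.ne_iff.1 hW0
    rw [Pi.zero_apply] at hst
    have hne : s ≠ t := by
      rintro rfl
      exact hst (hdiag s)
    have hts : W (t, s) ≠ 0 := by
      rw [hanti t s, neg_ne_zero]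
      exact hst
    refine lrb_two F α (Sum.inl s) (Sum.inl t) (fun h => hne (Sum.inl.inj h)) ?_ ?_
    · rw [ha]
      refine lrb_solve F _ (fun j => W (t, j)) a s hts
        (fun j => (IntermediateField.adjoin F _).algebraMap_mem ⟨_, hW _⟩) (fun j hj => ?_) (hWa t)
      by_cases hjt : j = t
      · left
        rw [hjt]
        exact hdiag t
      · right
        exact IntermediateField.subset_adjoin _ _ ⟨Sum.inl j, by simp [hj, hjt], ha j⟩
    · rw [ha]
      refine lrb_solve F _ (fun j => W (s, j)) a t hst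
        (fun j => (IntermediateField.adjoin F _).algebraMap_mem ⟨_, hW _⟩) (fun j hj => ?_) (hWa s)
      by_cases hjs : j = s
      · left
        rw [hjs]
        exact hdiag s
      · right
        exact IntermediateField.subset_adjoin _ _ ⟨Sum.inl j, by simp [hj, hjs], ha j⟩
  · push Not at hWa
    obtain ⟨s, hs⟩ := hWa
    have hbil : ∀ c : Fin (n + 1) → Ω, bil c W a = ∑ j, (∑ t, W (j, t) * a t) * c j := by
      intro c
      unfold bil
      refine Finset.sum_congr rfl fun j _ => ?_
      rw [Finset.sum_mul]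
      refine Finset.sum_congr rfl fun t _ => ?_
      ring
    rw [hbil] at hb hb'
    have hu : ∀ j, ∑ t, W (j, t) * a t ∈ IntermediateField.adjoin F (α ''
        ((Finset.univ.erase (Sum.inr (Sum.inl s))).erase (Sum.inr (Sum.inr s)) :
          Finset (Fin (n + 1) ⊕ Fin (n + 1) ⊕ Fin (n + 1)))) := fun j => by
      refine sum_mem fun t _ => mul_mem ?_ ?_
      · exact (IntermediateField.adjoin F _).algebraMap_mem ⟨_, hW _⟩
      · exact IntermediateField.subset_adjoin _ _ ⟨Sum.inl t, by simp, ha t⟩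
    refine lrb_two F α (Sum.inr (Sum.inl s)) (Sum.inr (Sum.inr s))
      (fun h => by simp at h) ?_ ?_
    · rw [hbe]
      refine lrb_solve F _ (fun j => ∑ t, W (j, t) * a t) b s hs hu (fun j hj => ?_) hb
      right
      exact IntermediateField.subset_adjoin _ _ ⟨Sum.inr (Sum.inl j), by simp [hj], hbe j⟩
    · rw [hbe']
      refine lrb_solve F _ (fun j => ∑ t, W (j, t) * a t) b' s hs hu (fun j hj => ?_) hb'
      right
      exact IntermediateField.subset_adjoin _ _ ⟨Sum.inr (Sum.inr j), by simp [hj], hbe' j⟩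

end Pool.Agent.H34.AW
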