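import Pool.Agent.H30.AW.Targets
import Pool.Agent.H77.AV.SGR

/-!
Module SG2 of aw_modules.
-/

set_option autoImplicit false

namespace Pool.Agent.H34.AW

open MvPolynomial SC Pool.Agent.H27.LV Pool.Agent.H30.AV Pool.Agent.H30.AW
open Pool.Agent.H77.AV (trdeg_ker hom_scale isPrime_ker)

/-- SG2 -/
theorem pf_SG2 (hTRQ : T_TRQ) : T_SG2 := by
  classical
  intro k Ω _ _ _ τ _ β P ζ hP hhom htr hζ x₀ hx₀
  obtain ⟨ζ', hζ'⟩ : ∃ ζ' : τ → Ω, ζ' = fun x => ζ x / ζ x₀ := ⟨_, rfl⟩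
  have hscale : (fun x => (ζ x₀)⁻¹ * ζ x) = ζ' := by
    funext x
    rw [hζ']
    exact (div_eq_inv_mul _ _).symm
  have hζ'0 : ∀ g ∈ P, aeval ζ' g = 0 := by
    rw [← hscale]
    exact hom_scale P hhom ζ hζ (ζ x₀)⁻¹
  have hone : ζ' x₀ = 1 := by
    rw [hζ']
    exact div_self hx₀
  have hK1p := isPrime_ker (k := k) ζ'
  have hPK1 : P ≤ RingHom.ker (aeval (R := k) ζ') := fun g hg => hζ'0 g hg
  have hX1 : (X x₀ - 1 : MvPolynomial τ k) ∈ RingHom.ker (aeval (R := k) ζ') := by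
    rw [RingHom.mem_ker, map_sub, map_one, aeval_X, hone, sub_self]
  have hnot : (X x₀ - 1 : MvPolynomial τ k) ∉ P := by
    intro h
    have h1 := hhom _ h 0
    rw [map_sub] at h1
    have h2 : homogeneousComponent 0 (X x₀ : MvPolynomial τ k) = 0 := by
      rw [homogeneousComponent_zero]
      simp
    have h3 : homogeneousComponent 0 (1 : MvPolynomial τ k) = 1 := by
      rw [homogeneousComponent_zero]
      simp
    rw [h2, h3, zero_sub] at h1
    have h4 : (1 : MvPolynomial τ k) ∈ P := by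
      have := P.neg_mem h1
      rwa [neg_neg] at this
    exact hP.ne_top ((Ideal.eq_top_iff_one P).2 h4)
  have hlt1 : P < RingHom.ker (aeval (R := k) ζ') :=
    lt_of_le_of_ne hPK1 fun h => hnot (by rw [h]; exact hX1)
  rw [← hζ', ← trdeg_ker]
  have h1 := (hTRQ k τ P _ hP hK1p hlt1).trans htr
  have h2 : ((β + 2 : ℕ) : Cardinal) = ((β + 1 : ℕ) : Cardinal) + 1 := by push_cast; ring
  rw [h2] at h1
  exact Cardinal.add_one_le_add_one_iff.1 h1

end Pool.Agent.H34.AW
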